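import Mathlib
import Pool.Agent.T2H79.ADGraph

set_option autoImplicit false

namespace Pool.Agent.Results.MP_e47ff0_co.TriangleCountFails

open Filter Topology Pool.Agent.T2H79.AD

/-- `emb(F,G)`: the number of injective maps `V(F) → V(G)` that send edges of `F` to edges of `G` -/
noncomputable def emb {k n : ℕ} (F : SimpleGraph (Fin k)) (G : SimpleGraph (Fin n)) : ℕ :=
  Nat.card {f : Fin k → Fin n // Function.Injective f ∧ ∀ a b, F.Adj a b → G.Adj (f a) (f b)}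

/-- `s_p(F,G) = emb(F,G) / (n (n-1) ⋯ (n-|F|+1) p^{e(F)})` -/
noncomputable def sp {k n : ℕ} (p : ℝ) (F : SimpleGraph (Fin k)) (G : SimpleGraph (Fin n)) : ℝ :=
  (emb F G : ℝ) / ((n.descFactorial k : ℝ) * p ^ F.edgeSet.ncard)

/-- `p(n) = n^{-o(1)}` and the conditions 1-3 of the problem -/
def Admissible (p : ℕ → ℝ) (G : (n : ℕ) → SimpleGraph (Fin n)) : Prop :=
  (∀ n, 0 < p n ∧ p n ≤ 1) ∧
  Tendsto (fun n : ℕ => Real.log (1 / p n) / Real.log n) atTop (𝓝 0) ∧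
  (∀ n, ((G n).edgeSet.ncard : ℝ) = p n * (n.choose 2 : ℝ)) ∧
  Tendsto (fun n => sp (p n) (SimpleGraph.cycleGraph 4) (G n)) atTop (𝓝 1) ∧
  ∀ (k : ℕ) (F : SimpleGraph (Fin k)), ∃ C : ℝ, ∀ n, sp (p n) F (G n) ≤ C

/-! ### counting -/

theorem emb_le {k n : ℕ} (F : SimpleGraph (Fin k)) (G : SimpleGraph (Fin n)) :
    emb F G ≤ hc F G.Adj := by
  unfold emb hc
  refine Nat.card_le_card_of_injective (fun f => ⟨f.1, f.2.2⟩) (fun f g h => Subtype.ext ?_)
  have h2 := congrArg Subtype.val h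
  exact h2

theorem emb_top {k n : ℕ} (G : SimpleGraph (Fin n)) :
    emb (⊤ : SimpleGraph (Fin k)) G = hc (⊤ : SimpleGraph (Fin k)) G.Adj := by
  unfold emb hc
  refine Nat.card_congr
    { toFun := fun f => ⟨f.1, f.2.2⟩
      invFun := fun f => ⟨f.1, ?_, f.2⟩
      left_inv := fun f => rfl
      right_inv := fun f => rfl }
  intro a b hab
  by_contra hne
  have := f.2 a b hne
  rw [hab] at this
  exact G.irrefl this

theorem two_edges {n : ℕ} (G : SimpleGraph (Fin n)) :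
    hc (⊤ : SimpleGraph (Fin 2)) G.Adj = 2 * G.edgeSet.ncard := by
  classical
  have e : HomS (⊤ : SimpleGraph (Fin 2)) G.Adj ≃ G.Dart :=
    { toFun := fun f => ⟨(f.1 0, f.1 1), f.2 0 1 (by simp)⟩
      invFun := fun d => ⟨![d.fst, d.snd], by
        intro a b hab
        have h1 := d.adj
        fin_cases a <;> fin_cases b <;> simp at hab ⊢ <;> first | exact h1 | exact h1.symm⟩
      left_inv := by
        intro f
        apply Subtype.ext
        funext a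
        fin_cases a <;> rfl
      right_inv := fun d => rfl }
  unfold hc
  rw [Nat.card_congr e, Nat.card_eq_fintype_card, SimpleGraph.dart_card_eq_twice_card_edges,
    SimpleGraph.edgeFinset_card, ← Nat.card_coe_set_eq, Nat.card_eq_fintype_card]

theorem eq_count (n : ℕ) (a b : Fin 4) (hab : a ≠ b) :
    Nat.card {f : Fin 4 → Fin n // f a = f b} ≤ n ^ 3 := by
  classical
  have h := single_count (c := n) a b hab
  rw [Nat.card_eq_fintype_card, Fintype.card_subtype]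
  rcases Nat.eq_zero_or_pos n with hn | hn
  · subst hn
    have : (Finset.univ.filter fun f : Fin 4 → Fin 0 => f a = f b) = ∅ := by
      ext f
      exact (f 0).elim0
    rw [this]; simp
  · have h2 : (Finset.univ.filter fun f : Fin 4 → Fin n => f a = f b).card * n = n ^ 3 * n := by
      rw [h]; ring
    exact (Nat.eq_of_mul_eq_mul_right hn h2).le

theorem cycle_emb {n : ℕ} (G : SimpleGraph (Fin n)) :
    hc (SimpleGraph.cycleGraph 4) G.Adj ≤ emb (SimpleGraph.cycleGraph 4) G + 2 * n ^ 3 := by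
  classical
  have hadj : ∀ a b : Fin 4, (SimpleGraph.cycleGraph 4).Adj a b ↔ (a = b + 1 ∨ b = a + 1) := by
    decide
  have key : ∀ f : Fin 4 → Fin n, (∀ a b, (SimpleGraph.cycleGraph 4).Adj a b → G.Adj (f a) (f b)) →
      ¬ Function.Injective f → f 0 = f 2 ∨ f 1 = f 3 := by
    intro f hf hinj
    by_contra hcon
    rw [not_or] at hcon
    apply hinj
    have h01 := (hf 0 1 (by rw [hadj]; decide)).ne
    have h12 := (hf 1 2 (by rw [hadj]; decide)).ne
    have h23 := (hf 2 3 (by rw [hadj]; decide)).ne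
    have h30 := (hf 3 0 (by rw [hadj]; decide)).ne
    intro a b hab
    fin_cases a <;> fin_cases b <;> simp at hab ⊢ <;>
      first
      | exact absurd hab h01
      | exact absurd hab.symm h01
      | exact absurd hab h12
      | exact absurd hab.symm h12
      | exact absurd hab h23
      | exact absurd hab.symm h23
      | exact absurd hab h30
      | exact absurd hab.symm h30
      | exact absurd hab hcon.1
      | exact absurd hab.symm hcon.1
      | exact absurd hab hcon.2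
      | exact absurd hab.symm hcon.2
  let X := {f : Fin 4 → Fin n // Function.Injective f ∧
    ∀ a b, (SimpleGraph.cycleGraph 4).Adj a b → G.Adj (f a) (f b)}
  let Y := {f : Fin 4 → Fin n // f 0 = f 2}
  let Z := {f : Fin 4 → Fin n // f 1 = f 3}
  have h : Nat.card (HomS (SimpleGraph.cycleGraph 4) G.Adj) ≤ Nat.card (X ⊕ (Y ⊕ Z)) := by
    refine Nat.card_le_card_of_injective (fun f =>
      if h1 : Function.Injective f.1 then Sum.inl ⟨f.1, h1, f.2⟩
      else if h2 : f.1 0 = f.1 2 then Sum.inr (Sum.inl ⟨f.1, h2⟩)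
      else Sum.inr (Sum.inr ⟨f.1, (key f.1 f.2 h1).resolve_left h2⟩)) ?_
    intro f g hfg
    apply Subtype.ext
    by_cases h1 : Function.Injective f.1 <;> by_cases h2 : Function.Injective g.1 <;>
      by_cases h3 : f.1 0 = f.1 2 <;> by_cases h4 : g.1 0 = g.1 2 <;>
      simp only [h1, h2, h3, h4, dite_true, dite_false, Sum.inl.injEq, Sum.inr.injEq,
        reduceCtorEq] at hfg <;> (have h5 := congrArg Subtype.val hfg; exact h5)
  rw [Nat.card_sum, Nat.card_sum] at h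
  have hY := eq_count n 0 2 (by decide)
  have hZ := eq_count n 1 3 (by decide)
  unfold hc emb
  have hX : Nat.card X = Nat.card {f : Fin 4 → Fin n // Function.Injective f ∧
    ∀ a b, (SimpleGraph.cycleGraph 4).Adj a b → G.Adj (f a) (f b)} := rfl
  have hY' : Nat.card Y ≤ n ^ 3 := hY
  have hZ' : Nat.card Z ≤ n ^ 3 := hZ
  omega

/-! ### the sequence -/

/-- slowly growing parameter -/
def Nn (n : ℕ) : ℕ := Nat.findGreatest (fun N => 2 ^ (N ^ 4) ≤ n) n

theorem Nn_spec {n : ℕ} (hn : 1 ≤ n) : 2 ^ ((Nn n) ^ 4) ≤ n :=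
  Nat.findGreatest_spec (P := fun N => 2 ^ (N ^ 4) ≤ n) (Nat.zero_le n) (by simpa using hn)

theorem le_Nn {K n : ℕ} (h : 2 ^ (K ^ 4) ≤ n) : K ≤ Nn n := by
  refine Nat.le_findGreatest ?_ h
  have h1 : K < 2 ^ K := Nat.lt_two_pow_self
  have h2 : 2 ^ K ≤ 2 ^ (K ^ 4) := by
    apply Nat.pow_le_pow_right (by norm_num)
    exact Nat.le_self_pow (by norm_num) K
  omega

theorem tendsto_Nn : Tendsto Nn atTop atTop := by
  rw [tendsto_atTop]
  intro K
  filter_upwards [eventually_ge_atTop (2 ^ (K ^ 4))] with n hn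
  exact le_Nn hn

noncomputable def Gs (n : ℕ) : SimpleGraph (Fin n) := blow (Nn n) n

noncomputable def ps (n : ℕ) : ℝ := if n < 2 then 1 else ((Gs n).edgeSet.ncard : ℝ) / (n.choose 2 : ℝ)

theorem edge_le (n : ℕ) (G : SimpleGraph (Fin n)) : G.edgeSet.ncard ≤ n.choose 2 := by
  classical
  have h := G.card_edgeFinset_le_card_choose_two
  rw [SimpleGraph.edgeFinset_card] at h
  rw [← Nat.card_coe_set_eq, Nat.card_eq_fintype_card]
  simpa using h

theorem ps_eq {n : ℕ} (hn : 2 ≤ n) :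
    ps n = (hc (⊤ : SimpleGraph (Fin 2)) (Gs n).Adj : ℝ) / ((n : ℝ) * (n - 1)) := by
  unfold ps
  rw [if_neg (by omega), two_edges, Nat.cast_choose_two]
  push_cast
  have h1 : (0 : ℝ) < n := by positivity
  have h2 : (0 : ℝ) < (n : ℝ) - 1 := by
    have : (2 : ℝ) ≤ n := by exact_mod_cast hn
    linarith
  field_simp

theorem T_K2 (N : ℕ) : T (⊤ : SimpleGraph (Fin 2)) N = (N : ℝ) / (N + 1) := by
  unfold T
  rw [hc_top]
  have : (N + 1).descFactorial 2 = (N + 1) * N := by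
    simp [Nat.descFactorial]; ring
  rw [this]
  push_cast
  field_simp

theorem T_K3 {N : ℕ} (hN : 1 ≤ N) : T (⊤ : SimpleGraph (Fin 3)) N =
    ((N : ℝ) / (N + 1)) ^ 3 * (1 + (-1) / ((N ^ 2 : ℕ) : ℝ)) := by
  unfold T
  rw [hc_top]
  have : (N + 1).descFactorial 3 = (N + 1) * N * (N - 1) := by
    obtain ⟨M, rfl⟩ := Nat.exists_eq_add_of_le' hN
    simp [Nat.descFactorial]; ring
  rw [this]
  have hN0 : (0 : ℝ) < N := by exact_mod_cast hN
  push_cast [Nat.cast_sub hN]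
  field_simp
  ring

theorem T_C4 {N : ℕ} (hN : 1 ≤ N) : T (SimpleGraph.cycleGraph 4) N =
    ((N : ℝ) / (N + 1)) ^ 4 * (1 + 1 / (N : ℝ) ^ 3) := by
  unfold T
  rw [hc_cycle (N + 1) (by omega)]
  have hN0 : (0 : ℝ) < N := by exact_mod_cast hN
  simp only [Nat.add_sub_cancel]
  push_cast
  field_simp

/-- normalised counts -/
noncomputable def AA {k : ℕ} (F : SimpleGraph (Fin k)) (n : ℕ) : ℝ :=
  (hc F (Gs n).Adj : ℝ) / ((T F (Nn n)) ^ ((Nn n) ^ 2) * (n : ℝ) ^ k)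

theorem tendsto_delta : Tendsto (fun n : ℕ => 1 / ((Nn n : ℝ) + 1)) atTop (𝓝 0) :=
  tendsto_one_div_add_atTop_nhds_zero_nat.comp tendsto_Nn

theorem AA_tendsto {k : ℕ} (F : SimpleGraph (Fin k)) (hT : ∀ N, 2 ≤ N → 0 < T F N) :
    Tendsto (AA F) atTop (𝓝 1) := by
  have h1 : Tendsto (fun n : ℕ => (1 - 1 / ((Nn n : ℝ) + 1)) ^ k) atTop (𝓝 1) := by
    have := ((tendsto_const_nhds (x := (1 : ℝ))).sub tendsto_delta).pow k
    simpa using this
  have h2 : Tendsto (fun n : ℕ => (1 + 1 / ((Nn n : ℝ) + 1)) ^ k) atTop (𝓝 1) := by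
    have := ((tendsto_const_nhds (x := (1 : ℝ))).add tendsto_delta).pow k
    simpa using this
  refine tendsto_of_tendsto_of_tendsto_of_le_of_le' h1 h2 ?_ ?_
  · filter_upwards [tendsto_Nn.eventually_ge_atTop 2, eventually_ge_atTop 1] with n hN hn
    obtain ⟨h3, h4⟩ := blow_bounds F hN (Nn_spec hn)
    have hT' := hT _ hN
    have hn0 : (0 : ℝ) < n := by exact_mod_cast hn
    unfold AA
    rw [le_div_iff₀ (by positivity)]
    calc _ = (T F (Nn n)) ^ ((Nn n) ^ 2) * ((n : ℝ) * (1 - 1 / ((Nn n : ℝ) + 1))) ^ k := by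
          rw [mul_pow]; ring
      _ ≤ _ := h3
  · filter_upwards [tendsto_Nn.eventually_ge_atTop 2, eventually_ge_atTop 1] with n hN hn
    obtain ⟨h3, h4⟩ := blow_bounds F hN (Nn_spec hn)
    have hT' := hT _ hN
    have hn0 : (0 : ℝ) < n := by exact_mod_cast hn
    unfold AA
    rw [div_le_iff₀ (by positivity)]
    calc _ ≤ (T F (Nn n)) ^ ((Nn n) ^ 2) * ((n : ℝ) * (1 + 1 / ((Nn n : ℝ) + 1))) ^ k := h4
      _ = _ := by rw [mul_pow]; ring

theorem T2_pos {N : ℕ} (hN : 1 ≤ N) : 0 < T (⊤ : SimpleGraph (Fin 2)) N := by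
  rw [T_K2]
  have hN0 : (0 : ℝ) < N := by exact_mod_cast hN
  positivity

theorem T3_pos {N : ℕ} (hN : 2 ≤ N) : 0 < T (⊤ : SimpleGraph (Fin 3)) N := by
  rw [T_K3 (by omega)]
  have hN0 : (2 : ℝ) ≤ N := by exact_mod_cast hN
  have : (0 : ℝ) < 1 + (-1) / ((N ^ 2 : ℕ) : ℝ) := by
    push_cast
    rw [neg_div, ← sub_eq_add_neg, sub_pos, div_lt_one (by positivity)]
    nlinarith
  positivity

theorem T4_pos {N : ℕ} (hN : 2 ≤ N) : 0 < T (SimpleGraph.cycleGraph 4) N := by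
  rw [T_C4 (by omega)]
  have hN0 : (2 : ℝ) ≤ N := by exact_mod_cast hN
  positivity

theorem Nn_pos {n : ℕ} (hn : 2 ≤ n) : 1 ≤ Nn n := le_Nn (by simpa using hn)

theorem hc2_pos {n : ℕ} (hn : 2 ≤ n) : (0 : ℝ) < hc (⊤ : SimpleGraph (Fin 2)) (Gs n).Adj := by
  have hN := Nn_pos hn
  obtain ⟨h1, -⟩ := blow_sandwich (⊤ : SimpleGraph (Fin 2)) (n := n) hN
  refine lt_of_lt_of_le ?_ h1
  have hM : (Nn n + 1) ^ ((Nn n) ^ 2) ≤ n := by
    refine le_trans ?_ (Nn_spec (by omega : 1 ≤ n))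
    have h1 : Nn n + 1 ≤ 2 ^ (Nn n) := Nat.lt_two_pow_self
    calc (Nn n + 1) ^ ((Nn n) ^ 2) ≤ (2 ^ (Nn n)) ^ ((Nn n) ^ 2) := by gcongr
      _ = 2 ^ ((Nn n) ^ 3) := by rw [← pow_mul]; congr 1; ring
      _ ≤ 2 ^ ((Nn n) ^ 4) := by
        apply Nat.pow_le_pow_right (by norm_num)
        exact Nat.pow_le_pow_right hN (by norm_num)
  have hq : 1 ≤ n / (Nn n + 1) ^ ((Nn n) ^ 2) := by
    rw [Nat.one_le_div_iff (by positivity)]
    exact hM
  have hq' : (0 : ℝ) < ((n / (Nn n + 1) ^ ((Nn n) ^ 2) : ℕ) : ℝ) := by exact_mod_cast hq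
  have := T2_pos hN
  positivity

theorem ps_pos (n : ℕ) : 0 < ps n := by
  by_cases hn : n < 2
  · unfold ps; rw [if_pos hn]; norm_num
  · push Not at hn
    rw [ps_eq hn]
    have h1 := hc2_pos hn
    have h2 : (0 : ℝ) < (n : ℝ) * (n - 1) := by
      have : (2 : ℝ) ≤ n := by exact_mod_cast hn
      apply mul_pos <;> linarith
    positivity

theorem ps_le (n : ℕ) : ps n ≤ 1 := by
  unfold ps
  split_ifs with hn
  · exact le_rfl
  · apply div_le_one_of_le₀ _ (by positivity)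
    exact_mod_cast edge_le n (Gs n)

theorem ps_edges (n : ℕ) : ((Gs n).edgeSet.ncard : ℝ) = ps n * (n.choose 2 : ℝ) := by
  unfold ps
  split_ifs with hn
  · have h1 := edge_le n (Gs n)
    have h2 : n.choose 2 = 0 := Nat.choose_eq_zero_of_lt hn
    rw [h2] at h1 ⊢
    simp at h1 ⊢
    exact h1
  · push Not at hn
    have : (0 : ℝ) < (n.choose 2 : ℝ) := by exact_mod_cast Nat.choose_pos hn
    field_simp

theorem T2_pow_ge {N : ℕ} (hN : 1 ≤ N) :
    Real.exp (-(N : ℝ)) ≤ (T (⊤ : SimpleGraph (Fin 2)) N) ^ (N ^ 2) := by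
  have hN0 : (0 : ℝ) < N := by exact_mod_cast hN
  have h1 : Real.exp (-(1 / (N : ℝ))) ≤ T (⊤ : SimpleGraph (Fin 2)) N := by
    rw [T_K2, Real.exp_neg, inv_le_comm₀ (by positivity) (by positivity)]
    have := Real.add_one_le_exp (1 / (N : ℝ))
    refine le_trans (le_of_eq ?_) this
    field_simp
    ring
  calc Real.exp (-(N : ℝ)) = (Real.exp (-(1 / (N : ℝ)))) ^ (N ^ 2) := by
        rw [← Real.exp_nat_mul]
        congr 1
        push_cast
        field_simp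
    _ ≤ _ := by gcongr

theorem ps_ge {n : ℕ} (hn : 2 ≤ n) (hN : 2 ≤ Nn n) :
    (T (⊤ : SimpleGraph (Fin 2)) (Nn n)) ^ ((Nn n) ^ 2) / 4 ≤ ps n := by
  obtain ⟨h3, -⟩ := blow_bounds (⊤ : SimpleGraph (Fin 2)) hN (Nn_spec (by omega : 1 ≤ n))
  have hT := T2_pos (show 1 ≤ Nn n by omega)
  have hn0 : (2 : ℝ) ≤ n := by exact_mod_cast hn
  rw [ps_eq hn, le_div_iff₀ (by apply mul_pos <;> linarith)]
  refine le_trans ?_ h3
  have hδ : (1 : ℝ) / ((Nn n : ℝ) + 1) ≤ 1 / 2 := by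
    apply one_div_le_one_div_of_le (by norm_num)
    have : (2 : ℝ) ≤ Nn n := by exact_mod_cast hN
    linarith
  have h4 : (1 / 2 : ℝ) ≤ 1 - 1 / ((Nn n : ℝ) + 1) := by linarith
  have h5 : (1 / 2 : ℝ) ^ 2 ≤ (1 - 1 / ((Nn n : ℝ) + 1)) ^ 2 := by gcongr
  rw [mul_pow]
  calc _ ≤ (T (⊤ : SimpleGraph (Fin 2)) (Nn n)) ^ ((Nn n) ^ 2) / 4 * ((n : ℝ) * n) := by
        gcongr; linarith
    _ = (T (⊤ : SimpleGraph (Fin 2)) (Nn n)) ^ ((Nn n) ^ 2) * ((n : ℝ) ^ 2 * (1 / 2) ^ 2) := by ring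
    _ ≤ _ := by gcongr

theorem ps_exp {n : ℕ} (hn : 2 ≤ n) (hN : 2 ≤ Nn n) :
    Real.exp (-(Nn n : ℝ)) / 4 ≤ ps n := by
  refine le_trans ?_ (ps_ge hn hN)
  have := T2_pow_ge (show 1 ≤ Nn n by omega)
  gcongr

theorem log_cond : Tendsto (fun n : ℕ => Real.log (1 / ps n) / Real.log n) atTop (𝓝 0) := by
  have h0 : Tendsto (fun n : ℕ => (8 : ℝ) * (1 / ((Nn n : ℝ) + 1))) atTop (𝓝 0) := by
    have := tendsto_delta.const_mul (8 : ℝ)
    simpa using this
  refine tendsto_of_tendsto_of_tendsto_of_le_of_le' tendsto_const_nhds h0 ?_ ?_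
  · filter_upwards [eventually_ge_atTop 2] with n hn
    apply div_nonneg
    · apply Real.log_nonneg
      rw [one_le_div (ps_pos n)]
      exact ps_le n
    · apply Real.log_nonneg
      exact_mod_cast (by omega : 1 ≤ n)
  · filter_upwards [tendsto_Nn.eventually_ge_atTop 2, eventually_ge_atTop 2] with n hN hn
    have hN0 : (2 : ℝ) ≤ Nn n := by exact_mod_cast hN
    have h1 : Real.log (1 / ps n) ≤ 2 * (Nn n : ℝ) := by
      have h2 : 1 / ps n ≤ 4 * Real.exp (Nn n : ℝ) := by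
        rw [div_le_iff₀ (ps_pos n)]
        have h3 := ps_exp hn hN
        rw [Real.exp_neg] at h3
        have h4 := Real.exp_pos (Nn n : ℝ)
        calc (1 : ℝ) = 4 * Real.exp (Nn n : ℝ) * ((Real.exp (Nn n : ℝ))⁻¹ / 4) := by field_simp
          _ ≤ _ := by gcongr
      have h5 : (4 : ℝ) ≤ Real.exp 2 := by
        have h6 := Real.exp_one_gt_d9
        have h7 : Real.exp 2 = Real.exp 1 * Real.exp 1 := by rw [← Real.exp_add]; norm_num
        rw [h7]; nlinarith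
      have h8 : 1 / ps n ≤ Real.exp (2 + Nn n) := by
        rw [Real.exp_add]
        refine h2.trans ?_
        gcongr
      calc Real.log (1 / ps n) ≤ Real.log (Real.exp (2 + Nn n)) :=
            Real.log_le_log (by have := ps_pos n; positivity) h8
        _ = 2 + Nn n := Real.log_exp _
        _ ≤ _ := by linarith
    have h2 : (Nn n : ℝ) ^ 4 / 2 ≤ Real.log n := by
      have h3 : ((2 : ℝ)) ^ ((Nn n) ^ 4) ≤ n := by exact_mod_cast Nn_spec (by omega : 1 ≤ n)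
      have h4 := Real.log_le_log (by positivity) h3
      rw [Real.log_pow] at h4
      push_cast at h4
      have h5 := Real.log_two_gt_d9
      have h6 : (0 : ℝ) ≤ (Nn n : ℝ) ^ 4 := by positivity
      nlinarith
    have h3 : (0 : ℝ) < (Nn n : ℝ) ^ 4 / 2 := by positivity
    have h4 : 0 < Real.log n := by linarith
    rw [div_le_iff₀ h4]
    calc Real.log (1 / ps n) ≤ 2 * (Nn n : ℝ) := h1
      _ ≤ 8 * (1 / ((Nn n : ℝ) + 1)) * ((Nn n : ℝ) ^ 4 / 2) := by
        rw [show 8 * (1 / ((Nn n : ℝ) + 1)) * ((Nn n : ℝ) ^ 4 / 2) =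
          4 * (Nn n : ℝ) ^ 4 / ((Nn n : ℝ) + 1) by ring, le_div_iff₀ (by positivity)]
        have h9 : (Nn n : ℝ) + 1 ≤ 2 * (Nn n : ℝ) ^ 3 := by
          nlinarith [sq_nonneg ((Nn n : ℝ))]
        nlinarith
      _ ≤ _ := by gcongr

theorem exp_lim : Tendsto (fun n : ℕ => (1 + (-1 : ℝ) / (((Nn n) ^ 2 : ℕ) : ℝ)) ^ ((Nn n) ^ 2)) atTop
    (𝓝 (Real.exp (-1))) := by
  have h1 := Real.tendsto_one_add_div_pow_exp (-1)
  have h2 : Tendsto (fun n => (Nn n) ^ 2) atTop atTop := by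
    refine tendsto_atTop_mono (fun n => ?_) tendsto_Nn
    exact Nat.le_self_pow (by norm_num) _
  exact h1.comp h2

theorem cyc_lim : Tendsto (fun n : ℕ => (1 + 1 / (Nn n : ℝ) ^ 3) ^ ((Nn n) ^ 2)) atTop (𝓝 1) := by
  have h0 : Tendsto (fun n : ℕ => Real.exp (2 * (1 / ((Nn n : ℝ) + 1)))) atTop (𝓝 1) := by
    have := (tendsto_delta.const_mul (2 : ℝ))
    rw [mul_zero] at this
    have h2 := (Real.continuous_exp.tendsto 0).comp this
    simpa [Function.comp_def] using h2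
  refine tendsto_of_tendsto_of_tendsto_of_le_of_le' tendsto_const_nhds h0 ?_ ?_
  · filter_upwards with n
    apply one_le_pow₀
    have : (0 : ℝ) ≤ 1 / (Nn n : ℝ) ^ 3 := by positivity
    linarith
  · filter_upwards [tendsto_Nn.eventually_ge_atTop 2] with n hN
    have hN0 : (2 : ℝ) ≤ Nn n := by exact_mod_cast hN
    have h1 : 1 + 1 / (Nn n : ℝ) ^ 3 ≤ Real.exp (1 / (Nn n : ℝ) ^ 3) := by
      have := Real.add_one_le_exp (1 / (Nn n : ℝ) ^ 3)
      linarith
    calc (1 + 1 / (Nn n : ℝ) ^ 3) ^ ((Nn n) ^ 2) ≤ (Real.exp (1 / (Nn n : ℝ) ^ 3)) ^ ((Nn n) ^ 2) := by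
          gcongr
      _ = Real.exp (1 / (Nn n : ℝ)) := by
        rw [← Real.exp_nat_mul]
        congr 1
        push_cast
        field_simp
      _ ≤ _ := by
        apply Real.exp_le_exp.2
        rw [mul_one_div, div_le_div_iff₀ (by positivity) (by positivity)]
        linarith

theorem edges3 : (⊤ : SimpleGraph (Fin 3)).edgeSet.ncard = 3 := by
  rw [Set.ncard_eq_toFinset_card']
  decide

theorem edges4 : (SimpleGraph.cycleGraph 4).edgeSet.ncard = 4 := by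
  rw [Set.ncard_eq_toFinset_card']
  decide

/-- rational functions of `n` -/
theorem inv_lim : Tendsto (fun n : ℕ => (1 : ℝ) / n) atTop (𝓝 0) := tendsto_one_div_atTop_nhds_zero_nat

theorem r3_lim : Tendsto (fun n : ℕ => ((n : ℝ) - 1) ^ 2 / ((n : ℝ) * (n - 2))) atTop (𝓝 1) := by
  have h : Tendsto (fun n : ℕ => (1 - (1 : ℝ) / n) ^ 2 / (1 - 2 * ((1 : ℝ) / n))) atTop (𝓝 1) := by
    have h1 : Tendsto (fun n : ℕ => (1 - (1 : ℝ) / n) ^ 2) atTop (𝓝 1) := by
      have := ((tendsto_const_nhds (x := (1 : ℝ))).sub inv_lim).pow 2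
      simpa using this
    have h2 : Tendsto (fun n : ℕ => (1 - 2 * ((1 : ℝ) / n))) atTop (𝓝 1) := by
      have := ((tendsto_const_nhds (x := (1 : ℝ))).sub (inv_lim.const_mul 2))
      simpa using this
    have := h1.div h2 one_ne_zero
    rw [div_one] at this
    exact this
  refine h.congr' ?_
  filter_upwards [eventually_ge_atTop 3] with n hn
  have hn0 : (3 : ℝ) ≤ n := by exact_mod_cast hn
  have h1 : (n : ℝ) ≠ 0 := by linarith
  have h2 : (n : ℝ) - 2 ≠ 0 := by linarith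
  field_simp

theorem r4_lim : Tendsto (fun n : ℕ => ((n : ℝ) - 1) ^ 3 / ((n : ℝ) * (n - 2) * (n - 3))) atTop (𝓝 1) := by
  have h : Tendsto (fun n : ℕ => (1 - (1 : ℝ) / n) ^ 3 / ((1 - 2 * ((1 : ℝ) / n)) * (1 - 3 * ((1 : ℝ) / n)))) atTop (𝓝 1) := by
    have h1 : Tendsto (fun n : ℕ => (1 - (1 : ℝ) / n) ^ 3) atTop (𝓝 1) := by
      have := ((tendsto_const_nhds (x := (1 : ℝ))).sub inv_lim).pow 3
      simpa using this
    have h2 : Tendsto (fun n : ℕ => (1 - 2 * ((1 : ℝ) / n))) atTop (𝓝 1) := by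
      have := ((tendsto_const_nhds (x := (1 : ℝ))).sub (inv_lim.const_mul 2))
      simpa using this
    have h3 : Tendsto (fun n : ℕ => (1 - 3 * ((1 : ℝ) / n))) atTop (𝓝 1) := by
      have := ((tendsto_const_nhds (x := (1 : ℝ))).sub (inv_lim.const_mul 3))
      simpa using this
    have := h1.div (h2.mul h3) (by norm_num)
    rw [mul_one, div_one] at this
    exact this
  refine h.congr' ?_
  filter_upwards [eventually_ge_atTop 4] with n hn
  have hn0 : (4 : ℝ) ≤ n := by exact_mod_cast hn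
  have h1 : (n : ℝ) ≠ 0 := by linarith
  have h2 : (n : ℝ) - 2 ≠ 0 := by linarith
  have h3 : (n : ℝ) - 3 ≠ 0 := by linarith
  field_simp

theorem desc3 {n : ℕ} (hn : 3 ≤ n) : (n.descFactorial 3 : ℝ) = n * (n - 1) * (n - 2) := by
  obtain ⟨m, rfl⟩ := Nat.exists_eq_add_of_le' hn
  have : (m + 3).descFactorial 3 = (m + 3) * (m + 2) * (m + 1) := by
    simp [Nat.descFactorial]; ring
  rw [this]; push_cast; ring

theorem desc4 {n : ℕ} (hn : 4 ≤ n) : (n.descFactorial 4 : ℝ) = n * (n - 1) * (n - 2) * (n - 3) := by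
  obtain ⟨m, rfl⟩ := Nat.exists_eq_add_of_le' hn
  have : (m + 4).descFactorial 4 = (m + 4) * (m + 3) * (m + 2) * (m + 1) := by
    simp [Nat.descFactorial]; ring
  rw [this]; push_cast; ring

theorem hc_eq_AA {k : ℕ} (F : SimpleGraph (Fin k)) {n : ℕ} (hn : 1 ≤ n) (hT : 0 < T F (Nn n)) :
    (hc F (Gs n).Adj : ℝ) = AA F n * ((T F (Nn n)) ^ ((Nn n) ^ 2) * (n : ℝ) ^ k) := by
  have hn0 : (0 : ℝ) < n := by exact_mod_cast hn
  unfold AA
  rw [div_mul_cancel₀]
  positivity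

theorem k3_lim : Tendsto (fun n => sp (ps n) (⊤ : SimpleGraph (Fin 3)) (Gs n)) atTop
    (𝓝 (Real.exp (-1))) := by
  have hA3 := AA_tendsto (⊤ : SimpleGraph (Fin 3)) (fun N hN => T3_pos hN)
  have hA2 := AA_tendsto (⊤ : SimpleGraph (Fin 2)) (fun N hN => T2_pos (by omega))
  have h := ((hA3.div (hA2.pow 3) (by norm_num)).mul exp_lim).mul r3_lim
  simp only [one_pow, div_one, one_mul, mul_one] at h
  refine h.congr' ?_
  filter_upwards [tendsto_Nn.eventually_ge_atTop 2, eventually_ge_atTop 3,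
    hA2.eventually_ne one_ne_zero] with n hN hn hA
  have hn0 : (3 : ℝ) ≤ n := by exact_mod_cast hn
  have hT2 := T2_pos (show 1 ≤ Nn n by omega)
  have hT3 := T3_pos hN
  have hN0 : (2 : ℝ) ≤ Nn n := by exact_mod_cast hN
  unfold sp
  rw [edges3, emb_top, desc3 hn, ps_eq (by omega), hc_eq_AA _ (by omega) hT3,
    hc_eq_AA _ (by omega) hT2, T_K3 (by omega), T_K2]
  simp only [Pi.div_apply]
  have h1 : (n : ℝ) ≠ 0 := by linarith
  have h2 : (n : ℝ) - 1 ≠ 0 := by linarith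
  have h3 : (n : ℝ) - 2 ≠ 0 := by linarith
  have h4 : (Nn n : ℝ) ≠ 0 := by linarith
  have h5 : (Nn n : ℝ) + 1 ≠ 0 := by linarith
  rw [mul_pow (((Nn n : ℝ) / (Nn n + 1)) ^ 3)]
  rw [← pow_mul, mul_comm 3 ((Nn n) ^ 2), pow_mul]
  have h6 : ((Nn n : ℝ) / (Nn n + 1)) ^ (Nn n) ^ 2 ≠ 0 := by
    apply pow_ne_zero
    exact div_ne_zero h4 h5
  generalize ((Nn n : ℝ) / (Nn n + 1)) ^ (Nn n) ^ 2 = W at h6 ⊢
  generalize (1 + (-1 : ℝ) / (((Nn n) ^ 2 : ℕ) : ℝ)) ^ (Nn n) ^ 2 = E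
  field_simp

theorem c4_lim : Tendsto (fun n => sp (ps n) (SimpleGraph.cycleGraph 4) (Gs n)) atTop (𝓝 1) := by
  have hA4 := AA_tendsto (SimpleGraph.cycleGraph 4) (fun N hN => T4_pos hN)
  have hA2 := AA_tendsto (⊤ : SimpleGraph (Fin 2)) (fun N hN => T2_pos (by omega))
  have h := ((hA4.div (hA2.pow 4) (by norm_num)).mul cyc_lim).mul r4_lim
  simp only [one_pow, div_one, mul_one] at h
  -- the upper function
  have hup : Tendsto (fun n : ℕ => (hc (SimpleGraph.cycleGraph 4) (Gs n).Adj : ℝ) /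
      ((n.descFactorial 4 : ℝ) * ps n ^ 4)) atTop (𝓝 1) := by
    refine h.congr' ?_
    filter_upwards [tendsto_Nn.eventually_ge_atTop 2, eventually_ge_atTop 4,
      hA2.eventually_ne one_ne_zero] with n hN hn hA
    have hn0 : (4 : ℝ) ≤ n := by exact_mod_cast hn
    have hT2 := T2_pos (show 1 ≤ Nn n by omega)
    have hT4 := T4_pos hN
    have hN0 : (2 : ℝ) ≤ Nn n := by exact_mod_cast hN
    rw [desc4 hn, ps_eq (by omega), hc_eq_AA _ (by omega) hT4,
      hc_eq_AA _ (by omega) hT2, T_C4 (by omega), T_K2]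
    simp only [Pi.div_apply]
    have h1 : (n : ℝ) ≠ 0 := by linarith
    have h2 : (n : ℝ) - 1 ≠ 0 := by linarith
    have h3 : (n : ℝ) - 2 ≠ 0 := by linarith
    have h3' : (n : ℝ) - 3 ≠ 0 := by linarith
    have h4 : (Nn n : ℝ) ≠ 0 := by linarith
    have h5 : (Nn n : ℝ) + 1 ≠ 0 := by linarith
    rw [mul_pow (((Nn n : ℝ) / (Nn n + 1)) ^ 4)]
    rw [← pow_mul, mul_comm 4 ((Nn n) ^ 2), pow_mul]
    have h6 : ((Nn n : ℝ) / (Nn n + 1)) ^ (Nn n) ^ 2 ≠ 0 := by
      apply pow_ne_zero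
      exact div_ne_zero h4 h5
    generalize ((Nn n : ℝ) / (Nn n + 1)) ^ (Nn n) ^ 2 = W at h6 ⊢
    generalize (1 + 1 / (Nn n : ℝ) ^ 3) ^ (Nn n) ^ 2 = E
    field_simp
  -- the error
  have herr : Tendsto (fun n : ℕ => (2 * (n : ℝ) ^ 3) / ((n.descFactorial 4 : ℝ) * ps n ^ 4)) atTop (𝓝 0) := by
    have h0 : Tendsto (fun n : ℕ => (65536 : ℝ) * (1 / ((Nn n : ℝ) + 1))) atTop (𝓝 0) := by
      have := tendsto_delta.const_mul (65536 : ℝ)
      simpa using this
    refine tendsto_of_tendsto_of_tendsto_of_le_of_le' tendsto_const_nhds h0 ?_ ?_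
    · filter_upwards with n
      have := ps_pos n
      positivity
    · filter_upwards [tendsto_Nn.eventually_ge_atTop 3, eventually_ge_atTop 8] with n hN hn
      have hn0 : (8 : ℝ) ≤ n := by exact_mod_cast hn
      have hp := ps_exp (show 2 ≤ n by omega) (show 2 ≤ Nn n by omega)
      have hp0 := ps_pos n
      rw [desc4 (by omega)]
      have hd : (n : ℝ) ^ 4 / 8 ≤ n * (n - 1) * (n - 2) * (n - 3) := by
        have e1 : (n : ℝ) / 2 ≤ n - 1 := by linarith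
        have e2 : (n : ℝ) / 2 ≤ n - 2 := by linarith
        have e3 : (n : ℝ) / 2 ≤ n - 3 := by linarith
        have e4 : (0 : ℝ) ≤ n / 2 := by linarith
        have e5 : (0 : ℝ) ≤ n := by linarith
        calc (n : ℝ) ^ 4 / 8 = n * (n / 2) * (n / 2) * (n / 2) := by ring
          _ ≤ _ := mul_le_mul (mul_le_mul (mul_le_mul le_rfl e1 e4 e5) e2 e4
              (mul_nonneg e5 (by linarith))) e3 e4
              (mul_nonneg (mul_nonneg e5 (by linarith)) (by linarith))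
      have hexp : Real.exp (-(Nn n : ℝ)) ^ 4 / 256 ≤ ps n ^ 4 := by
        calc _ = (Real.exp (-(Nn n : ℝ)) / 4) ^ 4 := by ring
          _ ≤ _ := by gcongr
      have hpow : ((2 : ℝ)) ^ ((Nn n) ^ 4) ≤ n := by exact_mod_cast Nn_spec (by omega : 1 ≤ n)
      have hexp2 : Real.exp (Nn n : ℝ) ^ 4 * ((Nn n : ℝ) + 1) ≤ n := by
        refine le_trans ?_ hpow
        have h4 : Real.exp 1 ≤ 4 := by
          have := Real.exp_one_lt_d9; linarith
        have h5 : Real.exp (Nn n : ℝ) ≤ (2 : ℝ) ^ (2 * Nn n) := by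
          have : Real.exp (Nn n : ℝ) = (Real.exp 1) ^ (Nn n) := by
            rw [← Real.exp_nat_mul]; simp
          rw [this, pow_mul]
          gcongr
          linarith
        have h6 : ((Nn n : ℝ) + 1) ≤ (2 : ℝ) ^ (Nn n) := by
          exact_mod_cast (Nat.lt_two_pow_self (n := Nn n))
        calc Real.exp (Nn n : ℝ) ^ 4 * ((Nn n : ℝ) + 1)
            ≤ ((2 : ℝ) ^ (2 * Nn n)) ^ 4 * (2 : ℝ) ^ (Nn n) := by gcongr
          _ = (2 : ℝ) ^ (9 * Nn n) := by rw [← pow_mul, ← pow_add]; congr 1; ring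
          _ ≤ _ := by
            apply pow_le_pow_right₀ (by norm_num)
            have h7 : 3 ^ 3 ≤ (Nn n) ^ 3 := Nat.pow_le_pow_left hN 3
            calc 9 * Nn n ≤ (Nn n) ^ 3 * Nn n := by gcongr; omega
              _ = (Nn n) ^ 4 := by ring
      have hE := Real.exp_pos (Nn n : ℝ)
      have hE' := Real.exp_pos (-(Nn n : ℝ))
      have hd0 : (0 : ℝ) < (n : ℝ) ^ 4 / 8 := by positivity
      calc (2 * (n : ℝ) ^ 3) / ((n : ℝ) * (n - 1) * (n - 2) * (n - 3) * ps n ^ 4)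
          ≤ (2 * (n : ℝ) ^ 3) / ((n : ℝ) ^ 4 / 8 * (Real.exp (-(Nn n : ℝ)) ^ 4 / 256)) := by
            gcongr
            linarith
        _ = 4096 * (Real.exp (Nn n : ℝ) ^ 4) / n := by
            rw [Real.exp_neg]
            field_simp
            norm_num
        _ ≤ 65536 * (1 / ((Nn n : ℝ) + 1)) := by
            rw [mul_one_div, div_le_div_iff₀ (by positivity) (by positivity)]
            nlinarith
  have hlow := hup.sub herr
  rw [sub_zero] at hlow
  refine tendsto_of_tendsto_of_tendsto_of_le_of_le' hlow hup ?_ ?_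
  · filter_upwards [eventually_ge_atTop 4] with n hn
    have hp0 := ps_pos n
    have hd : (0 : ℝ) < n.descFactorial 4 := by
      exact_mod_cast Nat.descFactorial_pos.2 hn
    unfold sp
    rw [edges4, ← sub_div]
    gcongr
    have h1 := cycle_emb (Gs n)
    have h2 : (hc (SimpleGraph.cycleGraph 4) (Gs n).Adj : ℝ) ≤
        (emb (SimpleGraph.cycleGraph 4) (Gs n) : ℝ) + 2 * (n : ℝ) ^ 3 := by exact_mod_cast h1
    linarith
  · filter_upwards [eventually_ge_atTop 4] with n hn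
    have hp0 := ps_pos n
    have hd : (0 : ℝ) < n.descFactorial 4 := by
      exact_mod_cast Nat.descFactorial_pos.2 hn
    unfold sp
    rw [edges4]
    gcongr
    exact_mod_cast emb_le (SimpleGraph.cycleGraph 4) (Gs n)

theorem T_bound {k : ℕ} (F : SimpleGraph (Fin k)) {N : ℕ} (hN : 1 ≤ N) :
    (T F N) ^ (N ^ 2) ≤ ((T (⊤ : SimpleGraph (Fin 2)) N) ^ (N ^ 2)) ^ F.edgeSet.ncard *
      Real.exp ((F.edgeSet.ncard : ℝ) ^ 2 * 2 ^ F.edgeSet.ncard) := by
  set e := F.edgeSet.ncard with he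
  have hN0 : (1 : ℝ) ≤ N := by exact_mod_cast hN
  set K : ℝ := (e : ℝ) ^ 2 * 2 ^ e with hK
  have hb := hc_bound (k := k) (c := N + 1) (by omega) F
  rw [← he] at hb
  have hT : T F N ≤ 1 - (e : ℝ) / ((N : ℝ) + 1) + (e : ℝ) ^ 2 / ((N : ℝ) + 1) ^ 2 := by
    unfold T
    rw [div_le_iff₀ (by positivity)]
    push_cast at hb
    linarith
  have hT2 : T (⊤ : SimpleGraph (Fin 2)) N = 1 + (-(1 / ((N : ℝ) + 1))) := by
    rw [T_K2]; field_simp; ring
  have hbern : 1 - (e : ℝ) / ((N : ℝ) + 1) ≤ (T (⊤ : SimpleGraph (Fin 2)) N) ^ e := by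
    rw [hT2]
    have h1 : (-2 : ℝ) ≤ -(1 / ((N : ℝ) + 1)) := by
      have : 1 / ((N : ℝ) + 1) ≤ 1 := by
        rw [div_le_one (by positivity)]; linarith
      linarith
    have := one_add_mul_le_pow h1 e
    refine le_trans (le_of_eq ?_) this
    ring
  have hT2pos := T2_pos hN
  have hsmall : (e : ℝ) ^ 2 / ((N : ℝ) + 1) ^ 2 ≤ (T (⊤ : SimpleGraph (Fin 2)) N) ^ e * (K / (N : ℝ) ^ 2) := by
    have h1 : (1 : ℝ) ≤ ((T (⊤ : SimpleGraph (Fin 2)) N) * 2) ^ e := by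
      apply one_le_pow₀
      rw [T_K2, div_mul_eq_mul_div, one_le_div (by positivity)]
      linarith
    rw [mul_pow] at h1
    calc (e : ℝ) ^ 2 / ((N : ℝ) + 1) ^ 2 ≤ (e : ℝ) ^ 2 / (N : ℝ) ^ 2 * 1 := by
          rw [mul_one]
          gcongr
          linarith
      _ ≤ (e : ℝ) ^ 2 / (N : ℝ) ^ 2 * ((T (⊤ : SimpleGraph (Fin 2)) N) ^ e * 2 ^ e) := by gcongr
      _ = _ := by rw [hK]; ring
  have hfin : T F N ≤ (T (⊤ : SimpleGraph (Fin 2)) N) ^ e * Real.exp (K / (N : ℝ) ^ 2) := by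
    have h1 := Real.add_one_le_exp (K / (N : ℝ) ^ 2)
    calc T F N ≤ (T (⊤ : SimpleGraph (Fin 2)) N) ^ e + (T (⊤ : SimpleGraph (Fin 2)) N) ^ e * (K / (N : ℝ) ^ 2) := by
          linarith
      _ = (T (⊤ : SimpleGraph (Fin 2)) N) ^ e * (K / (N : ℝ) ^ 2 + 1) := by ring
      _ ≤ _ := by gcongr
  calc (T F N) ^ (N ^ 2) ≤ ((T (⊤ : SimpleGraph (Fin 2)) N) ^ e * Real.exp (K / (N : ℝ) ^ 2)) ^ (N ^ 2) := by
        have := T_nonneg F N
        gcongr
    _ = _ := by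
      rw [mul_pow, ← pow_mul, mul_comm e, pow_mul, ← Real.exp_nat_mul]
      congr 2
      push_cast
      field_simp

theorem sp_bound {k : ℕ} (F : SimpleGraph (Fin k)) : ∃ C : ℝ, ∀ n, sp (ps n) F (Gs n) ≤ C := by
  set e := F.edgeSet.ncard with he
  have hev : ∀ᶠ n : ℕ in atTop, sp (ps n) F (Gs n) ≤
      Real.exp ((e : ℝ) ^ 2 * 2 ^ e) * 2 ^ k * 4 ^ e * 2 ^ k := by
    filter_upwards [tendsto_Nn.eventually_ge_atTop 2, eventually_ge_atTop (2 * k + 2)] with n hN hn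
    obtain ⟨-, h4⟩ := blow_bounds F hN (Nn_spec (by omega : 1 ≤ n))
    have hTb := T_bound F (show 1 ≤ Nn n by omega)
    rw [← he] at hTb
    have hp := ps_ge (show 2 ≤ n by omega) hN
    have hT2 := T2_pos (show 1 ≤ Nn n by omega)
    set W := (T (⊤ : SimpleGraph (Fin 2)) (Nn n)) ^ ((Nn n) ^ 2) with hW
    have hW0 : 0 < W := by positivity
    have hn0 : (0 : ℝ) < n := by exact_mod_cast (by omega : 0 < n)
    have hdesc : (n : ℝ) ^ k ≤ 2 ^ k * (n.descFactorial k : ℝ) := by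
      have h1 := Nat.pow_sub_le_descFactorial n k
      have h2 : n ≤ 2 * (n + 1 - k) := by omega
      have h3 : n ^ k ≤ 2 ^ k * n.descFactorial k := by
        calc n ^ k ≤ (2 * (n + 1 - k)) ^ k := Nat.pow_le_pow_left h2 k
          _ = 2 ^ k * (n + 1 - k) ^ k := mul_pow _ _ _
          _ ≤ _ := by gcongr
      exact_mod_cast h3
    have hd : (0 : ℝ) < n.descFactorial k := by
      exact_mod_cast Nat.descFactorial_pos.2 (by omega : k ≤ n)
    have hδ : 1 + 1 / ((Nn n : ℝ) + 1) ≤ 2 := by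
      have : 1 / ((Nn n : ℝ) + 1) ≤ 1 := by
        rw [div_le_one (by positivity)]
        have : (0 : ℝ) ≤ Nn n := by positivity
        linarith
      linarith
    unfold sp
    rw [← he, div_le_iff₀ (by have := ps_pos n; positivity)]
    have hE := Real.exp_pos ((e : ℝ) ^ 2 * 2 ^ e)
    calc (emb F (Gs n) : ℝ) ≤ (hc F (Gs n).Adj : ℝ) := by exact_mod_cast emb_le F (Gs n)
      _ ≤ (T F (Nn n)) ^ ((Nn n) ^ 2) * ((n : ℝ) * (1 + 1 / ((Nn n : ℝ) + 1))) ^ k := h4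
      _ ≤ (W ^ e * Real.exp ((e : ℝ) ^ 2 * 2 ^ e)) * ((n : ℝ) * 2) ^ k := by
        gcongr
      _ = Real.exp ((e : ℝ) ^ 2 * 2 ^ e) * 2 ^ k * 4 ^ e * (n : ℝ) ^ k * (W / 4) ^ e := by
        rw [mul_pow, div_pow]
        field_simp
      _ ≤ Real.exp ((e : ℝ) ^ 2 * 2 ^ e) * 2 ^ k * 4 ^ e * (2 ^ k * (n.descFactorial k : ℝ)) * (ps n) ^ e := by
        gcongr
      _ = _ := by ring
  obtain ⟨n0, hn0⟩ := eventually_atTop.1 hev
  refine ⟨Real.exp ((e : ℝ) ^ 2 * 2 ^ e) * 2 ^ k * 4 ^ e * 2 ^ k +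
    ∑ n ∈ Finset.range n0, |sp (ps n) F (Gs n)|, fun n => ?_⟩
  by_cases h : n0 ≤ n
  · have h1 := hn0 n h
    have h2 : 0 ≤ ∑ n ∈ Finset.range n0, |sp (ps n) F (Gs n)| :=
      Finset.sum_nonneg (fun _ _ => abs_nonneg _)
    linarith
  · push Not at h
    have h1 : |sp (ps n) F (Gs n)| ≤ ∑ n ∈ Finset.range n0, |sp (ps n) F (Gs n)| :=
      Finset.single_le_sum (f := fun n => |sp (ps n) F (Gs n)|) (fun _ _ => abs_nonneg _)
        (Finset.mem_range.2 h)
    have h2 : 0 ≤ Real.exp ((e : ℝ) ^ 2 * 2 ^ e) * 2 ^ k * 4 ^ e * 2 ^ k := by positivity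
    linarith [le_abs_self (sp (ps n) F (Gs n))]

theorem admissible : Admissible ps Gs :=
  ⟨fun n => ⟨ps_pos n, ps_le n⟩, log_cond, ps_edges, c4_lim, fun _ F => sp_bound F⟩

/-- **Q1 of MP_e47ff0 is false.** There are `p(n) = n^{-o(1)}` and graphs `G_n` on `n` vertices that
satisfy the conditions 1-3 of the problem, but `s_p(K_3,G_n) → 1/e ≠ 1`. -/
theorem result :
    (∃ (p : ℕ → ℝ) (G : (n : ℕ) → SimpleGraph (Fin n)), Admissible p G ∧
      Tendsto (fun n => sp (p n) (⊤ : SimpleGraph (Fin 3)) (G n)) atTop (𝓝 (Real.exp (-1)))) ∧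
    ¬ ∀ (p : ℕ → ℝ) (G : (n : ℕ) → SimpleGraph (Fin n)), Admissible p G →
      Tendsto (fun n => sp (p n) (⊤ : SimpleGraph (Fin 3)) (G n)) atTop (𝓝 1) := by
  refine ⟨⟨ps, Gs, admissible, k3_lim⟩, fun H => ?_⟩
  have h1 := tendsto_nhds_unique (H ps Gs admissible) k3_lim
  have h2 : Real.exp (-1) < 1 := by
    rw [Real.exp_lt_one_iff]; norm_num
  linarith

end Pool.Agent.Results.MP_e47ff0_co.TriangleCountFails
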